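import Pool.Agent.H148Z.Fan5

set_option autoImplicit false

namespace Pool.Agent.Results.MP_56c207_gt.AEqualEPGFans

open Pool.Agent.H148Z.Fan

/-- There are two non-homeomorphic smooth endpoint-homogeneous fans that are both
`[0, 1/2]`-EPG. -/
theorem result : ∃ (F G : Type) (_ : MetricSpace F) (_ : MetricSpace G) (s : F) (t : G),
    (IsFan s ∧ IsSmooth s ∧ EndpointHomogeneous F ∧
      IsEPG s {x : unitInterval | (x : ℝ) ≤ 1 / 2}) ∧
    (IsFan t ∧ IsSmooth t ∧ EndpointHomogeneous G ∧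
      IsEPG t {x : unitInterval | (x : ℝ) ≤ 1 / 2}) ∧ IsEmpty (F ≃ₜ G) :=
  main

end Pool.Agent.Results.MP_56c207_gt.AEqualEPGFans
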